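import Pool.Agent.Helper62.ZH3.Table
import Pool.Agent.Helper62.ZH.ProvHenkin

/-!
# Project ZH (MP_f907b0): the machine with 131 states halts iff ZF has no model
-/

set_option autoImplicit false

namespace Pool.Agent.Helper62.ZH3

open Pool.Agent.Helper19.ZH (TM pre bit_pre length_pre)
open Pool.Agent.Helper19.ZH3
open Pool.Agent.Helper62.ZH

private theorem getElem_pre' (β : ℕ → Bool) (n i : ℕ) (h : i < n) : (pre β n).reverse[i]? = some (β i) := by
  have h1 := bit_pre β n i
  rw [if_pos h] at h1
  exact h1

theorem halts_iff_no_model : machine.Halts ↔ ¬ ∃ (M : Type) (E : M → M → Prop), ZFModel E := by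
  rw [TM.halts_iff, ← good3_iff]
  have key := halts_iff_of (prog := text3) (δ' := machine.tr) (f := nm) (ok := fun q => okS q = true) (fun q h b w d r hd => ext q h b w d r hd) rfl rfl
    (by decide +kernel) (by decide +kernel) (viol := viol3) (fun b => runs3_viol3 b) (G := ∃ T, Good3 T) ?_ ?_
  · exact key
  · rintro ⟨T, hT⟩
    obtain ⟨β, hβ⟩ := exists_branch T
    refine ⟨β, fun n => ?_⟩
    have h1 : viol3 (pre β n).reverse = false := by
      refine viol3_false hT hβ (fun i hi => ?_)
      rw [List.length_reverse, length_pre] at hi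
      exact getElem_pre' β n i hi
    rw [h1]
    exact Bool.false_ne_true
  · intro h β
    obtain ⟨N, hN⟩ := viol3_persists h β
    refine ⟨N, fun M => ?_⟩
    obtain ⟨n, hn, hu⟩ := hN M
    refine ⟨n, hn, fun u hu2 => ?_⟩
    rw [List.reverse_append]
    exact hu _ (by rw [List.length_reverse, hu2]) _ (by rw [List.length_reverse, length_pre]) (fun i hi => getElem_pre' β N i hi)

/-- The machine halts iff falsity is provable from the axioms of ZF. -/
theorem halts_iff_prov : machine.Halts ↔ Prov ZFAx [] botF :=
  halts_iff_no_model.trans zf_prov_iff.symm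

end Pool.Agent.Helper62.ZH3
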