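import Pool.Agent.Helper19.ZH3.Loop
import Pool.Agent.Helper62.ZH.TextRun3

/-!
# Project ZH (MP_f907b0): the machine with 131 states

`tab`: its table (row number `q`: the transitions of the state `q` on `0` and on `1`).
`nm`: the state of the machine for each state of `del text3` (several states are identified).
-/

set_option autoImplicit false

namespace Pool.Agent.Helper62.ZH3

open Pool.Agent.Helper19.ZH (TM)
open Pool.Agent.Helper19.ZH3
open Pool.Agent.Helper62.ZH (text3)

/-- The transitions: `r0 q`: write `0`, move right, enter the state `q`; `l1 q`: write `1`, move left, enter the state `q`; `none`: halt. -/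
abbrev Tr := Option (Bool × Bool × ℕ)

def r0 (q : ℕ) : Tr := some (false, true, q)
def r1 (q : ℕ) : Tr := some (true, true, q)
def l0 (q : ℕ) : Tr := some (false, false, q)
def l1 (q : ℕ) : Tr := some (true, false, q)

/-- The rows number 0, ..., 23. -/
def tab1 : List (Tr × Tr) := [
  (r0 1, r1 1),
  (r1 2, r1 2),
  (r1 3, r1 4),
  (l0 5, r1 0),
  (l0 6, r1 0),
  (l0 7, l1 7),
  (l0 8, l1 8),
  (l0 9, l1 9),
  (r0 10, l1 11),
  (l0 12, l1 12),
  (r0 1, l1 13),
  (l1 12, l0 14),
  (l0 15, l1 5),
  (r0 16, l1 17),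
  (none, l1 6),
  (r1 18, l1 19),
  (r1 1, r0 1),
  (r0 20, l1 21),
  (r0 22, r0 18),
  (l0 23, l1 24),
  (r0 25, r1 20),
  (r0 26, l1 27),
  (r1 28, r1 1),
  (r1 29, r1 29)]

/-- The rows number 24, ..., 47. -/
def tab2 : List (Tr × Tr) := [
  (l0 30, l1 31),
  (r0 32, r1 32),
  (r0 33, r0 26),
  (l0 13, l1 13),
  (r0 34, r1 34),
  (r0 35, r1 29),
  (l1 36, r1 29),
  (l0 37, l1 38),
  (r1 39, l1 10),
  (r0 1, r1 32),
  (r1 40, r1 41),
  (r0 42, r1 35),
  (l1 43, r1 29),
  (r1 44, r1 29),
  (l0 45, l1 46),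
  (r1 47, r1 47),
  (l0 5, r1 48),
  (r1 0, r1 48),
  (r0 49, r1 49),
  (r1 50, r1 29),
  (r0 51, r1 44),
  (l0 43, r1 29),
  (r1 52, l1 53),
  (l0 11, r1 25)]

/-- The rows number 48, ..., 71. -/
def tab3 : List (Tr × Tr) := [
  (r0 28, r1 28),
  (r0 54, r1 54),
  (r0 55, r1 50),
  (r0 33, r1 51),
  (r0 56, r1 52),
  (l0 45, l1 57),
  (r0 58, r1 58),
  (r0 35, r1 52),
  (r0 59, r1 59),
  (l0 23, l1 60),
  (l0 61, r1 42),
  (r0 62, r0 63),
  (l0 37, l1 64),
  (l0 65, l0 66),
  (r0 67, r1 67),
  (r0 68, r1 68),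
  (l0 36, l1 69),
  (l0 70, l1 70),
  (l0 71, l1 71),
  (l0 5, r1 56),
  (l0 5, r1 72),
  (l0 43, l1 73),
  (l0 74, l1 74),
  (l0 75, l1 75)]

/-- The rows number 72, ..., 95. -/
def tab4 : List (Tr × Tr) := [
  (r0 76, r1 76),
  (l0 36, l1 77),
  (l0 78, l1 61),
  (l0 79, l1 80),
  (r0 63, r1 62),
  (l0 81, l1 82),
  (l0 83, l1 78),
  (l0 84, l1 79),
  (l0 66, l1 65),
  (r1 17, r1 29),
  (l0 43, l1 85),
  (l0 86, l1 86),
  (l0 87, l1 87),
  (r1 88, l1 89),
  (r0 90, l1 86),
  (r1 50, l1 87),
  (r0 91, r1 88),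
  (l0 23, l1 92),
  (l0 93, r0 94),
  (r0 95, l1 90),
  (l0 36, l1 96),
  (r0 18, l1 93),
  (r1 97, r1 98),
  (r1 39, l1 16)]

/-- The rows number 96, ..., 119. -/
def tab5 : List (Tr × Tr) := [
  (l0 81, l1 99),
  (r0 35, r1 100),
  (r0 97, r1 98),
  (l0 30, l1 101),
  (r0 72, r1 100),
  (r1 88, l1 102),
  (l0 45, l1 103),
  (l0 23, l1 104),
  (l0 43, l1 105),
  (l0 106, l1 107),
  (l1 37, r1 29),
  (r1 88, l1 108),
  (l0 109, l1 110),
  (l1 111, r1 29),
  (l0 37, l1 112),
  (l1 23, r1 29),
  (l0 113, l1 114),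
  (r1 50, r0 46),
  (l0 36, l1 115),
  (l0 81, l1 116),
  (r1 88, l1 117),
  (l0 113, l1 118),
  (r1 52, l1 119),
  (l0 43, l1 120)]

/-- The rows number 120, ..., 130. -/
def tab6 : List (Tr × Tr) := [
  (r1 52, l1 121),
  (r1 100, l1 122),
  (l0 109, l1 123),
  (l0 106, l1 124),
  (l0 43, l1 125),
  (r1 88, l1 126),
  (l0 43, l1 127),
  (l0 36, l1 128),
  (r1 129, l1 130),
  (r0 48, r1 129),
  (l0 30, l1 21)]

/-- The table: for each state the transitions on `0` and on `1`. -/
def tab : List (Tr × Tr) := tab1 ++ tab2 ++ tab3 ++ tab4 ++ tab5 ++ tab6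

/-- The machine: the state `0` is the initial state; in the state `q` it performs the first entry of row `q` on the symbol `0` and the second entry on `1`. -/
def machine : TM 131 where
  start := Fin.ofNat 131 0
  tr := fun q b => (if b = true then (tab.getD q.1 (none, none)).2 else (tab.getD q.1 (none, none)).1).map fun t => (t.1, t.2.1, Fin.ofNat 131 t.2.2)

/-- The chain states. -/
def nmC : List (Fin 131) := [15, 19, 24, 31, 38, 46, 53, 57, 60, 64, 69, 73, 77, 82, 85, 89, 92, 96, 99, 101, 102, 103, 104, 105, 107, 108, 110, 112, 114, 115, 116, 117, 118, 119, 120, 121, 122, 123, 124, 125, 126, 127, 128, 130, 21]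

/-- The names of the states. -/
def nm : St → Fin 131
  | .C i => nmC.getD i 0
  | .K k => [0, 23, 111, 109].getD k 0
  | .O k => [0, 43, 36, 30].getD k 0
  | .KJ k => [0, 37, 106].getD k 0
  | .R false => 100
  | .R true => 52
  | .RR false => 98
  | .RR true => 50
  | .S false => 97
  | .S true => 55
  | .P false => 78
  | .P true => 79
  | .Q false => 83
  | .Q true => 84
  | .q false => 86
  | .q true => 87
  | .AV false => 72
  | .AV true => 56
  | .AA false => 76
  | .AA true => 59
  | .AD false => 63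
  | .AD true => 62
  | .AE false => 68
  | .AE true => 67
  | .DD false => 80
  | .DD true => 61
  | .DA false => 66
  | .DA true => 65
  | .DV false => 71
  | .DV true => 70
  | .DE false => 75
  | .DE true => 74
  | .RE false => 3
  | .RE true => 4
  | .rE false => 40
  | .rE true => 41
  | .Ks => 45
  | .M => 113
  | .KX => 81
  | .VX => 17
  | .VJ => 44
  | .G => 29
  | .Gp => 35
  | .X => 90
  | .Y => 94
  | .WL => 88
  | .WJ => 51
  | .WX => 20
  | .Wr => 129
  | .Lv => 91
  | .Ka => 95
  | .Jv => 33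
  | .NV => 42
  | .NA => 49
  | .ND => 54
  | .NE => 58
  | .NLd => 5
  | .NLa => 7
  | .NLv => 9
  | .NLe => 12
  | .FV => 25
  | .FA => 32
  | .FD => 39
  | .FE => 47
  | .GV => 10
  | .ALe => 13
  | .ALd => 17
  | .ALa => 21
  | .ALv => 27
  | .RVf => 16
  | .RV => 0
  | .RA => 1
  | .RD => 2
  | .I0 => 8
  | .I1 => 11
  | .I2 => 14
  | .I3 => 6
  | .rV => 48
  | .rA => 28
  | .rD => 34
  | .U1 => 90
  | .U2 => 93
  | .Er => 18
  | .EJ => 26
  | .Tv => 22

/-- The states that occur. -/
def okS : St → Bool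
  | .C i => decide (i ≤ 44)
  | .K k => decide (1 ≤ k ∧ k ≤ 3)
  | .O k => decide (1 ≤ k ∧ k ≤ 3)
  | .KJ k => decide (1 ≤ k ∧ k ≤ 2)
  | _ => true

/-- The check for one state and one symbol. -/
def good (q : St) (b : Bool) : Bool :=
  match del text3 q b with
  | none => true
  | some (w, d, r) => okS r && decide (machine.tr (nm q) b = some (w, d, nm r))

theorem good_C : ∀ i : ℕ, i < 45 → ∀ b : Bool, good (.C i) b = true := by decide +kernel

theorem good_K : ∀ i : ℕ, i < 4 → 1 ≤ i → ∀ b : Bool, good (.K i) b = true := by decide +kernel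

theorem good_O : ∀ i : ℕ, i < 4 → 1 ≤ i → ∀ b : Bool, good (.O i) b = true := by decide +kernel

theorem good_KJ : ∀ i : ℕ, i < 3 → 1 ≤ i → ∀ b : Bool, good (.KJ i) b = true := by decide +kernel

theorem good_all (q : St) (h : okS q = true) (b : Bool) : good q b = true := by
  cases q with
  | C i => exact good_C i (by have := of_decide_eq_true h; omega) b
  | K i => exact good_K i (by have := of_decide_eq_true h; omega) (of_decide_eq_true h).1 b
  | O i => exact good_O i (by have := of_decide_eq_true h; omega) (of_decide_eq_true h).1 b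
  | KJ i => exact good_KJ i (by have := of_decide_eq_true h; omega) (of_decide_eq_true h).1 b
  | R s => revert s b; decide +kernel
  | RR s => revert s b; decide +kernel
  | S s => revert s b; decide +kernel
  | P s => revert s b; decide +kernel
  | Q s => revert s b; decide +kernel
  | q s => revert s b; decide +kernel
  | AV s => revert s b; decide +kernel
  | AA s => revert s b; decide +kernel
  | AD s => revert s b; decide +kernel
  | AE s => revert s b; decide +kernel
  | DD s => revert s b; decide +kernel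
  | DA s => revert s b; decide +kernel
  | DV s => revert s b; decide +kernel
  | DE s => revert s b; decide +kernel
  | RE s => revert s b; decide +kernel
  | rE s => revert s b; decide +kernel
  | _ => revert b; decide +kernel

/-- The machine extends the partial machine. -/
theorem ext (q : St) (h : okS q = true) (b w d : Bool) (r : St) (hd : del text3 q b = some (w, d, r)) :
    okS r = true ∧ machine.tr (nm q) b = some (w, d, nm r) := by
  have h1 := good_all q h b
  unfold good at h1
  rw [hd] at h1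
  simp only [Bool.and_eq_true, decide_eq_true_eq] at h1
  exact h1

end Pool.Agent.Helper62.ZH3
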